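import Pool.Agent.Lib.MP_6bc78b_nt.GP.H62.Defs7
import Pool.Agent.Lib.MP_02fec8_nt.Mert

/-! Project GP10 (MP_6bc78b_nt), helper81: MERK. -/

set_option autoImplicit false

open Finset

namespace Pool.Agent.Lib.MP_6bc78b_nt.GP.H81

open Pool.Agent.Lib.MP_02fec8_nt
open Pool.Agent.Lib.MP_6bc78b_nt.GP.G7

/-- **MERK**: `∑ 1/q` over `(P, P^K]`, uniform in `K`. -/
theorem merk : ∃ c P0 : ℝ, 0 < c ∧ 2 ≤ P0 ∧ ∀ (P : ℝ) (K : ℕ), P0 ≤ P → 1 ≤ K →
    c * Real.log K ≤ Wq P (P ^ K) := by
  classical
  obtain ⟨C, hC0, hC⟩ := Mert.mertens2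
  refine ⟨1 / 2, Real.exp (8 * C + 8) + 3, by norm_num, by
    have := Real.exp_pos (8 * C + 8); linarith, fun P K hP hK => ?_⟩
  have hW0 : 0 ≤ Wq P (P ^ K) := by
    unfold Wq
    exact Finset.sum_nonneg fun q _ => by positivity
  by_cases hK1 : K = 1
  · rw [hK1]; simpa [hK1] using hW0
  have hK2 : 2 ≤ K := by omega
  have hE := Real.exp_pos (8 * C + 8)
  have hP1 : (3 : ℝ) ≤ P := by linarith
  have hP0 : 0 < P := by linarith
  set y := ⌊P⌋₊ with hy
  set z := ⌊P ^ K⌋₊ with hz
  have hyP : (y : ℝ) ≤ P := Nat.floor_le hP0.le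
  have hyP' : P - 1 < y := by
    have := Nat.lt_floor_add_one P
    linarith
  have hyE : Real.exp (8 * C + 8) ≤ y := by linarith
  have hy0 : (0 : ℝ) < y := by linarith
  have hy2 : 2 ≤ y := by
    have h : (1 : ℝ) < y := by
      have := Real.add_one_le_exp (8 * C + 8)
      linarith
    have : 1 < y := by exact_mod_cast h
    omega
  have hKr : (2 : ℝ) ≤ K := by exact_mod_cast hK2
  have hPK1 : P ^ K / 2 ≤ z := by
    have h1 := Nat.lt_floor_add_one (P ^ K)
    rw [← hz] at h1
    have h3 : P ^ 1 ≤ P ^ K := pow_le_pow_right₀ (by linarith) hK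
    rw [pow_one] at h3
    linarith
  have hyz : y ≤ z := by
    apply Nat.floor_mono
    calc P = P ^ 1 := (pow_one P).symm
      _ ≤ P ^ K := pow_le_pow_right₀ (by linarith) hK
  have hm := hC y z hy2 hyz
  have hly : 8 * C + 8 ≤ Real.log y := by
    rw [Real.le_log_iff_exp_le hy0]; exact hyE
  have hly0 : 0 < Real.log y := by linarith
  have hlyP : Real.log y ≤ Real.log P := Real.log_le_log hy0 hyP
  have hlP : 0 < Real.log P := by linarith
  have h1 : C / Real.log y ≤ 1 / 8 := by
    rw [div_le_iff₀ hly0]; linarith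
  have h2 : Real.log (Real.log y) ≤ Real.log (Real.log P) := Real.log_le_log hly0 hlyP
  have h3 : Real.log K + Real.log (Real.log P) - 1 / 7 ≤ Real.log (Real.log z) := by
    have h4 : 7 / 8 * (K * Real.log P) ≤ Real.log z := by
      have h5 := Real.log_le_log (by positivity) hPK1
      rw [Real.log_div (by positivity) (by norm_num), Real.log_pow] at h5
      have h6 : Real.log 2 ≤ 1 := by
        have := Real.log_two_lt_d9
        linarith
      have h7 : 8 * 2 ≤ K * Real.log P := by nlinarith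
      linarith
    have h7 : Real.log (7 / 8 * (K * Real.log P)) =
        Real.log (7 / 8) + (Real.log K + Real.log (Real.log P)) := by
      rw [Real.log_mul (by norm_num) (by positivity), Real.log_mul (by positivity) hlP.ne']
    have h8 := Real.log_le_log (by positivity) h4
    rw [h7] at h8
    have h9 : -(1 / 7) ≤ Real.log (7 / 8) := by
      have := Real.one_sub_inv_le_log_of_pos (show (0 : ℝ) < 7 / 8 by norm_num)
      norm_num at this ⊢
      linarith
    linarith
  have hlK : 69 / 100 ≤ Real.log K := by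
    have h5 := Real.log_le_log (by norm_num) hKr
    have := Real.log_two_gt_d9
    linarith
  have h9 : 1 / 2 * Real.log K ≤ Mert.S y z := by linarith
  refine h9.trans ?_
  unfold Mert.S Wq
  refine Finset.sum_le_sum_of_subset_of_nonneg ?_ fun q _ _ => by positivity
  intro q hq
  rw [Finset.mem_filter, Finset.mem_Ioc] at hq
  unfold qs
  rw [Finset.mem_filter, Finset.mem_range]
  refine ⟨by omega, hq.2, ?_⟩
  have h10 : y + 1 ≤ q := hq.1.1
  have h11 : ((y + 1 : ℕ) : ℝ) ≤ q := by exact_mod_cast h10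
  push_cast at h11
  linarith

end Pool.Agent.Lib.MP_6bc78b_nt.GP.H81
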